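import Pool.Agent.H42.PropT

open Cardinal Pool.Agent.H42.PropT

/-- The least size of a maximal subalgebra with property (T) is the continuum. -/
theorem Pool.Agent.Results.MP_898cae_lc.Full.result : propT = 𝔠 := propT_eq
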